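import Mathlib
import Pool.Agent.H50.G.S.H410R2.ACIface
/-!
ENGINE: repelling Selberg weights on rough positions, positive proportion.

Everything is for a finite weighted set of integers m < M with weight w m >= 0, total mass about A,
well distributed in residue classes: the mass of (m = c_p mod p for all p in T) is
A * prod kappa_p(c_p) up to err T.  Positions are labelled by natural numbers a; the number at the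
position a is divisible by p when m % p = rho p a.
-/

set_option autoImplicit false

open Finset

namespace Pool.Agent.H410R2.EN

open Pool.Agent.H410R2.AC

/-- indicator that no prime of P divides the number at the position a -/
noncomputable def rg (ρ : ℕ → ℕ → ℕ) (P : Finset ℕ) (a m : ℕ) : ℝ :=
  if ∀ p ∈ P, m % p ≠ ρ p a then 1 else 0

/-- local densities: close to 1/p except possibly for the class `e p` -/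
def Dens (κ : ℕ → ℕ → ℝ) (e : ℕ → ℕ) (P : Finset ℕ) : Prop :=
  ∀ p ∈ P, ∀ c < p, 0 ≤ κ p c ∧ κ p c ≤ 1 / ((p : ℝ) - 1) ∧
    (c ≠ e p → |κ p c - 1 / (p : ℝ)| ≤ 1 / ((p : ℝ) - 1) ^ 2)

/-- equidistribution to all moduli up to D0, with error err -/
def Equid (κ : ℕ → ℕ → ℝ) (w : ℕ → ℝ) (M : ℕ) (A : ℝ) (P : Finset ℕ) (D0 : ℕ)
    (err : Finset ℕ → ℝ) : Prop :=
  ∀ T ⊆ P, ∏ p ∈ T, p ≤ D0 → ∀ c : ℕ → ℕ, (∀ p ∈ T, c p < p) →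
    |∑ m ∈ (range M).filter (fun m => ∀ p ∈ T, m % p = c p), w m - A * ∏ p ∈ T, κ p (c p)| ≤ err T

/-- total error -/
noncomputable def ET (K : ℕ) (P : Finset ℕ) (D0 : ℕ) (err : Finset ℕ → ℝ) : ℝ :=
  ∑ T ∈ P.powerset.filter (fun T : Finset ℕ => ∏ p ∈ T, p ≤ D0), (K : ℝ) ^ T.card * err T

/-- size of all the local deviations for the positions in U -/
noncomputable def dl (e : ℕ → ℕ) (ρ : ℕ → ℕ → ℕ) (P U : Finset ℕ) : ℝ :=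
  ∑ p ∈ P, 1 / ((p : ℝ) - 1) ^ 2 +
    ∑ p ∈ P.filter (fun p => (∃ a ∈ U, ∃ b ∈ U, a ≠ b ∧ ρ p a = ρ p b) ∨ ∃ a ∈ U, ρ p a = e p),
      1 / ((p : ℝ) - 1)

/-- product of 1 - 1/p -/
noncomputable def V1 (P : Finset ℕ) : ℝ := ∏ p ∈ P, (1 - 1 / (p : ℝ))

open Classical in
/-- EN1: fundamental lemma (Brun-Hooley), with weights and with a sum of errors -/
def FLem : Prop := ∀ κ : ℕ, ∃ C0 : ℕ, 1 ≤ C0 ∧ ∀ (b J z0 : ℕ) (P : Finset ℕ) (g : ℕ → ℝ),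
  C0 ≤ b → C0 ≤ z0 → (∀ p ∈ P, p.Prime ∧ z0 < p ∧ p ≤ 2 ^ 2 ^ J) →
  (∀ p ∈ P, 0 ≤ g p ∧ g p ≤ κ / ((p : ℝ) - 1)) →
  ∀ (Ω : Finset ℕ) (w : ℕ → ℝ) (hit : ℕ → ℕ → Prop) (A : ℝ) (err : Finset ℕ → ℝ),
    (∀ m ∈ Ω, 0 ≤ w m) → 0 ≤ A →
    (∀ T ⊆ P, ∏ p ∈ T, p ≤ (2 ^ 2 ^ J) ^ (C0 * b) →
      |∑ m ∈ Ω.filter (fun m => ∀ p ∈ T, hit p m), w m - A * ∏ p ∈ T, g p| ≤ err T) →
    |∑ m ∈ Ω.filter (fun m => ∀ p ∈ P, ¬ hit p m), w m - A * ∏ p ∈ P, (1 - g p)| ≤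
      (1 / 2 : ℝ) ^ b * (A * ∏ p ∈ P, (1 - g p)) +
        ((J : ℝ) + 2) *
          ∑ T ∈ P.powerset.filter (fun T : Finset ℕ => ∏ p ∈ T, p ≤ (2 ^ 2 ^ J) ^ (C0 * b)), err T

/-- mass of the product of two configurations, over m for which all positions are P1-rough -/
noncomputable def MM {T : Type} [Fintype T] (ρ : ℕ → ℕ → ℕ) (P1 : Finset ℕ) (w : ℕ → ℝ) (M : ℕ)
    (S S' : T → Finset (Finset ℕ)) (σ σ' : T → Option ℕ) : ℝ :=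
  ∑ m ∈ range M, w m * ((∏ a ∈ pos σ ∪ pos σ', rg ρ P1 a m) * (ZZ ρ S σ m * ZZ ρ S' σ' m))

/-- the error term of the moments -/
noncomputable def EE (K b J : ℕ) (P2 : Finset ℕ) (A v δ E : ℝ) : ℝ :=
  A * v * (K * Pi1 P2 ^ K * (Real.exp (K * δ) - 1 + (1 / 2 : ℝ) ^ b)) +
    K * Pi1 P2 ^ K * (((J : ℝ) + 2) * E)

/-- EN2: mixed moments of two configurations -/
def MomW : Prop := ∀ n : ℕ, ∃ K : ℕ, 1 ≤ K ∧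
  ∀ (T : Type) [Fintype T] [DecidableEq T], Fintype.card T ≤ n →
  ∀ (b J z0 D0 D2 : ℕ) (P1 P2 : Finset ℕ) (ρ : ℕ → ℕ → ℕ) (κ : ℕ → ℕ → ℝ) (e : ℕ → ℕ)
    (w : ℕ → ℝ) (M : ℕ) (A : ℝ) (err : Finset ℕ → ℝ) (S S' : T → Finset (Finset ℕ))
    (σ σ' : T → Option ℕ) (δ : ℝ),
    K ≤ b → K ≤ z0 → (∀ p ∈ P1, p.Prime ∧ z0 < p ∧ p ≤ 2 ^ 2 ^ J) →
    (∀ p ∈ P2, p.Prime ∧ z0 < p ∧ 2 ^ 2 ^ J < p) → Dens κ e (P1 ∪ P2) → (∀ m, 0 ≤ w m) → 0 ≤ A →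
    Equid κ w M A (P1 ∪ P2) D0 err → (2 ^ 2 ^ J) ^ (K * b) * D2 ≤ D0 →
    (∀ R ∈ Fintype.piFinset S, ∀ R' ∈ Fintype.piFinset S',
      (∏ τ, ∏ p ∈ R τ, p) * (∏ τ, ∏ p ∈ R' τ, p) ≤ D2) →
    Std ρ P2 S σ → Std ρ P2 S' σ' → (∀ p ∈ P1, ∀ a ∈ pos σ ∪ pos σ', ρ p a < p) →
    dl e ρ (P1 ∪ P2) (pos σ ∪ pos σ') ≤ δ → δ ≤ 1 →
    (Defect S S' σ σ' → |MM ρ P1 w M S S' σ σ'| ≤
      EE K b J P2 A (V1 P1 ^ (pos σ ∪ pos σ').card) δ (ET K (P1 ∪ P2) D0 err)) ∧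
    (σ = σ' → S = S' →
      |MM ρ P1 w M S S' σ σ' - A * V1 P1 ^ (pos σ ∪ pos σ').card * ∏ τ, GG (S τ)| ≤
      EE K b J P2 A (V1 P1 ^ (pos σ ∪ pos σ').card) δ (ET K (P1 ∪ P2) D0 err))

/-- the one-particle values -/
noncomputable def xx {n : ℕ} (ρ : ℕ → ℕ → ℕ) (P1 : Finset ℕ) (S : Fin n → Finset (Finset ℕ))
    (g : Fin n → ℝ) (m : ℕ) (τ : Fin n) (a : ℕ) : ℝ :=
  - g τ * (rg ρ P1 a m * FF ρ (S τ) (some a) m)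

/-- the error term of the second moments -/
noncomputable def EF (n K b J k : ℕ) (A V δ E : ℝ) : ℝ :=
  A * (K / V ^ K * (Real.exp (K * δ) - 1 + (1 / 2 : ℝ) ^ b)) +
    K / V ^ K * (k + 1 : ℝ) ^ (2 * n + 2) * (((J : ℝ) + 2) * E)

/-- standing assumptions of the engine -/
def Setup (K b J z0 D0 : ℕ) (P1 P2 B : Finset ℕ) (ρ : ℕ → ℕ → ℕ) (κ : ℕ → ℕ → ℝ) (e : ℕ → ℕ)
    (w : ℕ → ℝ) (M : ℕ) (A : ℝ) (err : Finset ℕ → ℝ) : Prop :=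
  K ≤ b ∧ K ≤ z0 ∧ (∀ p ∈ P1, p.Prime ∧ z0 < p ∧ p ≤ 2 ^ 2 ^ J) ∧
    (∀ p ∈ P2, p.Prime ∧ z0 < p ∧ 2 ^ 2 ^ J < p) ∧ Dens κ e (P1 ∪ P2) ∧ (∀ m, 0 ≤ w m) ∧ 0 ≤ A ∧
    Equid κ w M A (P1 ∪ P2) D0 err ∧ (∀ p ∈ P1 ∪ P2, ∀ a ∈ B, ρ p a < p)

/-- EN3: second moments, with and without a spectator position -/
def SecondW : Prop := ∀ (n : ℕ) (C : ℝ), 1 ≤ C → ∃ K : ℕ, 1 ≤ K ∧
  ∀ (b J z0 D0 : ℕ) (P1 P2 B : Finset ℕ) (ρ : ℕ → ℕ → ℕ) (κ : ℕ → ℕ → ℝ) (e : ℕ → ℕ)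
    (w : ℕ → ℝ) (M : ℕ) (A : ℝ) (err : Finset ℕ → ℝ) (S : Fin n → Finset (Finset ℕ))
    (g : Fin n → ℝ) (Y : Fin n → ℕ) (Y1 : ℕ) (V δ : ℝ),
    Setup K b J z0 D0 P1 P2 B ρ κ e w M A err →
    (2 ^ 2 ^ J) ^ (K * b) * (Y1 * ∏ τ, Y τ) ^ 2 ≤ D0 → 0 < V → V ≤ 1 → δ ≤ 1 →
    Pi1 P2 ≤ C / V → (B.card : ℝ) * V1 P1 ≤ C / V → (∀ τ, 0 ≤ g τ ∧ g τ ≤ C) →
    (∀ τ, ∀ R ∈ S τ, R ⊆ P2) → (∀ τ, ∅ ∉ S τ) → (∀ τ τ', τ ≠ τ' → Disjoint (S τ) (S τ')) →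
    (∀ U ⊆ B, U.card ≤ 2 * n + 2 → dl e ρ (P1 ∪ P2) U ≤ δ) →
    (∀ τ, 1 ≤ Y τ ∧ ∀ R ∈ S τ, ∏ p ∈ R, p ≤ Y τ) → 1 ≤ Y1 →
    (∀ (c : (Fin n → Option ℕ) → ℝ), (∀ σ, |c σ| ≤ 1) →
      |∑ m ∈ range M, w m * WW B c (xx ρ P1 S g m) ^ 2 -
        A * ∑ σ ∈ cfg n B, c σ ^ 2 * occ (fun τ => g τ ^ 2 * (V1 P1 * GG (S τ))) σ| ≤
      EF n K b J B.card A V δ (ET K (P1 ∪ P2) D0 err)) ∧
    (∀ (S1 : Finset (Finset ℕ)), (∀ R ∈ S1, R ⊆ P2) → (∀ R ∈ S1, ∏ p ∈ R, p ≤ Y1) →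
      ∀ a₀ ∈ B, ∀ (c : (Fin n → Option ℕ) → ℝ), (∀ σ, |c σ| ≤ 1) →
      |∑ m ∈ range M, w m * (WW (B.erase a₀) c (xx ρ P1 S g m) *
          (rg ρ P1 a₀ m * FF ρ S1 (some a₀) m)) ^ 2 -
        A * (V1 P1 * GG S1 * ∑ σ ∈ cfg n (B.erase a₀), c σ ^ 2 *
          occ (fun τ => g τ ^ 2 * (V1 P1 * GG (S τ))) σ)| ≤
      EF n K b J B.card (A * V1 P1) V δ (ET K (P1 ∪ P2) D0 err))

/-- EN4: fourth moment -/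
def FourthW : Prop := ∀ (n : ℕ) (C : ℝ), 1 ≤ C → ∃ K : ℕ, 1 ≤ K ∧
  ∀ (b J z0 D0 k0 : ℕ) (P1 P2 B : Finset ℕ) (ρ : ℕ → ℕ → ℕ) (κ : ℕ → ℕ → ℝ) (e : ℕ → ℕ)
    (w : ℕ → ℝ) (M : ℕ) (A : ℝ) (err : Finset ℕ → ℝ) (S : Fin n → Finset (Finset ℕ))
    (g : Fin n → ℝ) (V : ℝ),
    Setup K b J z0 D0 P1 P2 B ρ κ e w M A err →
    (2 ^ 2 ^ J) ^ (K * b) ≤ D0 → 0 < V → V ≤ 1 →
    Pi1 P2 ≤ C / V → (B.card : ℝ) * V1 P1 ≤ C / V → (∀ τ, 0 ≤ g τ ∧ g τ ≤ C) →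
    (∀ τ, ∀ R ∈ S τ, R ⊆ P2) →
    (∀ U ⊆ B, U.card ≤ 4 * n → dl e ρ (P1 ∪ P2) U ≤ 1) →
    (∀ m < M, w m ≠ 0 → ∀ a ∈ B, rg ρ P1 a m ≠ 0 →
      (P2.filter (fun p => m % p = ρ p a)).card ≤ k0) →
    ∀ (c : (Fin n → Option ℕ) → ℝ), (∀ σ, |c σ| ≤ 1) →
    ∑ m ∈ range M, w m * WW B c (xx ρ P1 S g m) ^ 4 ≤
      (K / V) ^ K * 2 ^ (4 * n * k0) *
        (A + (B.card + 1 : ℝ) ^ (4 * n) * (((J : ℝ) + 2) * ET K (P1 ∪ P2) D0 err))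

/-- EN5: the core theorem: a positive proportion of the mass has no P-rough position in B -/
def CoreW : Prop := ∀ (C θ : ℝ), 1 ≤ C → 0 < θ → θ ≤ 1 →
  ∃ c : ℝ, 0 < c ∧ ∃ K : ℕ, 1 ≤ K ∧ ∃ X0 : ℝ, ∀ X : ℝ, X0 ≤ X → ∀ (z0 z2 D0 ps : ℕ),
    K ≤ z0 → (z0 : ℝ) ≤ Real.log X → z2 = ⌊X ^ θ⌋₊ → D0 = ⌊X ^ θ⌋₊ →
    ∀ (B : Finset ℕ) (ρ : ℕ → ℕ → ℕ) (κ : ℕ → ℕ → ℝ) (e : ℕ → ℕ) (w : ℕ → ℝ) (M : ℕ) (A : ℝ)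
      (err : Finset ℕ → ℝ),
      (B.card : ℝ) * Real.log z0 ≤ C * Real.log X →
      (∀ p ∈ (PP z0 z2).erase ps, ∀ a ∈ B, ρ p a < p) →
      Dens κ e ((PP z0 z2).erase ps) → (∀ m, 0 ≤ w m) → 0 ≤ A →
      Equid κ w M A ((PP z0 z2).erase ps) D0 err →
      (∀ U ⊆ B, U.card ≤ K → dl e ρ ((PP z0 z2).erase ps) U ≤ 1 / K) →
      ET K ((PP z0 z2).erase ps) D0 err ≤ A / Real.log X ^ K →
      (∀ m < M, w m ≠ 0 → ∀ a ∈ B,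
        (∏ p ∈ ((PP z0 z2).erase ps).filter (fun p => m % p = ρ p a), (p : ℝ)) ≤ X ^ C ∨
          ∀ p ∈ (PP z0 z2).erase ps, m % p = ρ p a) →
      c * A ≤ ∑ m ∈ (range M).filter
        (fun m => ∀ a ∈ B, ∃ p ∈ (PP z0 z2).erase ps, m % p = ρ p a), w m

/-- EN6: theorem Z.  C log N arbitrary shifts: a positive proportion of the integers n has no n - a
prime. -/
def ZFinal : Prop := ∀ C : ℝ, ∃ c : ℝ, 0 < c ∧ ∃ N₀ : ℕ, ∀ N : ℕ, N₀ ≤ N → ∀ A : Finset ℤ,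
  (∀ a ∈ A, |a| ≤ N) → (A.card : ℝ) ≤ C * Real.log N →
  c * N ≤ (((range N).filter (fun n : ℕ => ∀ a ∈ A, ¬ ((n : ℤ) - a).natAbs.Prime)).card : ℝ)

/-- EN7: theorem P.  The same for primes n. -/
def PFinal : Prop := ∀ C : ℝ, ∃ c : ℝ, 0 < c ∧ ∃ N₀ : ℕ, ∀ N : ℕ, N₀ ≤ N → ∀ A : Finset ℤ,
  (∀ a ∈ A, |a| ≤ N ∧ a ≠ 0) →
  ∑ a ∈ A, ((a.natAbs : ℝ) / (Nat.totient a.natAbs : ℝ)) ≤ C * Real.log N →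
  c * (N / Real.log N) ≤ (((range N).filter
    (fun p : ℕ => p.Prime ∧ ∀ a ∈ A, ¬ ((p : ℤ) - a).natAbs.Prime)).card : ℝ)

end Pool.Agent.H410R2.EN
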