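import Mathlib
import Pool.Agent.H50.G.S.H410R2.Iface3
/-! Stubs for the remaining pieces of module M and App1 (TEAM-MT). Each `def X : Prop` is to be
proved as `theorem x : X` in your own namespace / folder. -/

namespace Pool.Agent.H410R2

open Finset

/-- primes in `(D, y]` -/
noncomputable def PW (D : ℕ) (y : ℝ) : Finset ℕ := (Icc (D + 1) ⌊y⌋₊).filter Nat.Prime

/-- the product of the primes `≤ D` -/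
def WW (D : ℕ) : ℕ := ∏ p ∈ (Icc 1 D).filter Nat.Prime, p

/-- the linear forms: `none ↦ n`, `some i ↦ a i * n + b i` -/
def LF {k : ℕ} (a b : Fin k → ℕ) : Option (Fin k) → ℕ → ℕ
  | none, n => n
  | some i, n => a i * n + b i

/-! ### NUM : numerics -/

/-- `g t = 1 / (1 + 14000 t)` -/
noncomputable def gg (t : ℝ) : ℝ := 1 / (1 + 14000 * t)

/-- `E t = 1 + 20 t + 400 t ^ 2` -/
noncomputable def ee (t : ℝ) : ℝ := 1 + 20 * t + 400 * t ^ 2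

/-- cutoff `T / k = 73 / 2000` -/
noncomputable def c0 : ℝ := 73 / 2000

noncomputable def I1 : ℝ := ∫ t in (0 : ℝ)..c0, gg t
noncomputable def I2 : ℝ := ∫ t in (0 : ℝ)..c0, gg t ^ 2
noncomputable def IE : ℝ := ∫ t in (0 : ℝ)..c0, gg t ^ 2 * ee t

/-- task NUM (`k = 2000`, `θ₁ = 24/100`). Facts: `I1 = log 512 / 14000`, `I2 = c0 / 512`,
`IE` elementary: with `u = 2000 t`, `IE = (γ2 + μ1/100 + μ2/10000)/2000`,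
`γ2 = 73/512`, `μ1 = (1/49)(log 512 - 511/512)`, `μ2 = (1/343)(511 + 511/512 - 2 log 512)`;
at `ε = 0` the ratio LHS/RHS is about `1.19`; then use continuity in `ε`. -/
def NumMain : Prop := ∀ ε₁ : ℝ, 0 < ε₁ → ∃ ε : ℝ, 0 < ε ∧ ε < ε₁ ∧ ε < I1 ∧ ε < I2 ∧
  (1 + ε) ^ 2 * (1 / 3 + ε) * (I2 + ε) ^ 2000 <
    (1 - ε) ^ 3 * (I1 - ε) ^ 2 * 2000 * (24 / 100) *
      ((1 - ε) * ((1 / 3 - ε) * (I2 - ε) ^ 1999) -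
        Real.exp (-(20 * (1 - c0))) * ((1 / 3 + ε) * (IE + ε) ^ 1999))

/-! ### ARI : arithmetic set-up -/

/-- task ARI. -/
def AriSetup : Prop := ∀ (k : ℕ) (a b : Fin k → ℕ), (∀ i, 1 ≤ a i) → (∀ i, 1 ≤ b i) →
  (∀ i j, i ≠ j → a i * b j ≠ a j * b i) →
  (∀ p : ℕ, p.Prime → ∃ n : ℕ, ¬ p ∣ n ∧ ∀ i, ¬ p ∣ a i * n + b i) →
  ∃ D₀ : ℕ, ∀ D : ℕ, D₀ ≤ D →
    (1 ≤ WW D) ∧ ((Nat.totient (WW D) : ℝ) = WW D * BD D) ∧ (0 < BD D) ∧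
    (∀ p : ℕ, p.Prime → p ≤ D → p ∣ WW D) ∧
    (∀ i, ∀ p : ℕ, p.Prime → p ∣ a i → p ∣ WW D) ∧
    (∃ v : ℕ, v.Coprime (WW D) ∧ ∀ i, (a i * v + b i).Coprime (WW D)) ∧
    ∀ P : Finset ℕ, (∀ p ∈ P, p.Prime ∧ D < p) →
      SieveData {p // p ∈ P} (Option (Fin k)) (fun t => t.1) (LF a b) (WW D)

/-! ### ANA : analytic facts (Mertens: `Pool.Agent.Erdos456.Mert.mertens_log`, `mertens_inv`;
divisor bound: `Pool.Agent.Helper112.divisor_bound`) -/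

/-- task ANA1 : product over primes -/
def ProdBound : Prop := ∀ c : ℝ, 0 ≤ c → ∃ C : ℝ, 0 < C ∧ ∃ m : ℕ, ∀ y : ℝ, 3 ≤ y →
  ∏ p ∈ (Icc 1 ⌊y⌋₊).filter Nat.Prime, (1 + c / (p : ℝ)) ≤ C * (Real.log y) ^ m

/-- task ANA2 -/
def OmegaBound : Prop := ∀ c : ℝ, 1 ≤ c → ∀ ε : ℝ, 0 < ε → ∃ C : ℝ, 0 < C ∧
  ∀ n : ℕ, 1 ≤ n → c ^ n.primeFactors.card ≤ C * (n : ℝ) ^ ε

/-- task ANA3 : tails of convergent products / sums -/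
def TailBound : Prop := ∀ c : ℝ, 0 ≤ c → ∀ ε : ℝ, 0 < ε → ∃ D₀ : ℕ, ∀ D : ℕ, D₀ ≤ D →
  ∀ P : Finset ℕ, (∀ p ∈ P, p.Prime ∧ D < p) →
    ∏ p ∈ P, (1 + c / ((p : ℝ) - 1) ^ 2) ≤ 1 + ε ∧ ∑ p ∈ P, c / ((p : ℝ) - 1) ^ 2 ≤ ε

/-- task ANA4 : sum over the small primes for the non-rough part
(`θ₀ log x = L₀`, `(log r / L₀ + K/(r-1))² ≤ 2 (log r)²/L₀² + 2K²/(r-1)²`, Mertens) -/
def RoughBound : Prop := ∀ θ₀ : ℝ, 0 < θ₀ → ∀ K : ℝ, 0 ≤ K → ∀ η : ℝ, 0 < η →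
  ∃ D₀ : ℕ, ∃ δ₀ : ℝ, 0 < δ₀ ∧ ∀ δ : ℝ, 0 < δ → δ ≤ δ₀ → ∃ x₀ : ℝ, ∀ x : ℝ, x₀ ≤ x →
    ∀ P : Finset ℕ, (∀ p ∈ P, p.Prime ∧ D₀ < p ∧ (p : ℝ) ≤ x ^ δ) →
      ∑ r ∈ P, (1 / (r : ℝ)) * (Real.log r / (θ₀ * Real.log x) + K / ((r : ℝ) - 1)) ^ 2 ≤ η

/-! ### App1 : singly attained differences (S15931) -/

/-- task APPa : certificate. For each `t < 2000`, `t ≥ 1`, two numbers `m₂, m₃` with
`m₂ < 36^t`, `(36^t / 2) ∣ φ(m₂)`, and `m₃ < 36^t`, `(36^t/3) ∣ φ(m₃)`.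
Construction (helper410): `m₂ = 3^c * ∏ ℓ∈A, ℓ` where `A` is a set of Pierpont primes
`ℓ = 2^i 3^j + 1` (not 3, 5, 7; `j ≤ i`), `∑ i = 2t-1`..., see the message; the products are
automatically small enough. -/
def Cert : Prop := ∀ t : ℕ, 1 ≤ t → t < 2000 →
  (∃ m : ℕ, 0 < m ∧ m < 36 ^ t ∧ 36 ^ t / 2 ∣ Nat.totient m) ∧
  (∃ m : ℕ, 0 < m ∧ m < 36 ^ t ∧ 36 ^ t / 3 ∣ Nat.totient m)

end Pool.Agent.H410R2
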